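import Pool.Agent.Helper88_FL.C5a

/-!
# C5: measurable covers of null sets by rational intervals
-/

open MeasureTheory Set

namespace Pool.Agent.FL.H88

variable {Y : Type*} [MeasurableSpace Y]

/-- The interval of a pair. -/
def II (x : ℚ × ℚ) : Set ℝ := Set.Ioo (x.1 : ℝ) (x.2 : ℝ)

theorem measurableSet_II (x : ℚ × ℚ) : MeasurableSet (II x) := measurableSet_Ioo

theorem volume_II_ne_top (x : ℚ × ℚ) : volume (II x) ≠ ⊤ := by
  unfold II
  rw [Real.volume_Ioo]
  exact ENNReal.ofReal_ne_top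

/-- The new part of the `n`-th interval when the intervals of `s` have been used. -/
def DD (c : ℕ → ℚ × ℚ) (n : ℕ) (s : Finset ℕ) : Set ℝ := II (c n) \ ⋃ i ∈ s, II (c i)

theorem measurableSet_DD (c : ℕ → ℚ × ℚ) (n : ℕ) (s : Finset ℕ) : MeasurableSet (DD c n s) :=
  (measurableSet_II _).diff (Finset.measurableSet_biUnion _ fun _ _ => measurableSet_II _)

theorem volume_DD_ne_top (c : ℕ → ℚ × ℚ) (n : ℕ) (s : Finset ℕ) : volume (DD c n s) ≠ ⊤ :=
  ne_top_of_le_ne_top (volume_II_ne_top (c n)) (measure_mono Set.sdiff_subset)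

open Classical in
/-- The indices below `n` which are active at `y`. -/
noncomputable def act (A : ℕ → Set Y) (y : Y) (n : ℕ) : Finset ℕ :=
  (Finset.range n).filter (fun i => y ∈ A i)

omit [MeasurableSpace Y] in
theorem mem_act {A : ℕ → Set Y} {y : Y} {n i : ℕ} : i ∈ act A y n ↔ i < n ∧ y ∈ A i := by
  classical
  unfold act
  rw [Finset.mem_filter, Finset.mem_range]

theorem measurable_act {A : ℕ → Set Y} (hA : ∀ n, MeasurableSet (A n)) (n : ℕ) {β : Type*}
    [MeasurableSpace β] (g : Finset ℕ → β) : Measurable (fun y => g (act A y n)) := by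
  intro T _
  have : (fun y => g (act A y n)) ⁻¹' T =
      ⋃ s : {s : Finset ℕ // g s ∈ T}, {y | act A y n = s.1} := by
    ext y
    simp only [Set.mem_preimage, Set.mem_iUnion]
    constructor
    · intro h
      exact ⟨⟨_, h⟩, rfl⟩
    · rintro ⟨⟨s, hs⟩, h⟩
      have h : act A y n = s := h
      rw [h]
      exact hs
  rw [this]
  refine MeasurableSet.iUnion fun s => ?_
  have h2 : {y | act A y n = s.1} = ⋂ i : ℕ, {y | (i < n ∧ y ∈ A i) ↔ i ∈ s.1} := by
    ext y
    simp only [Set.mem_ofPred_eq, Set.mem_iInter]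
    rw [Finset.ext_iff]
    exact forall_congr' fun i => by rw [mem_act]
  rw [h2]
  refine MeasurableSet.iInter fun i => ?_
  have h3 : MeasurableSet {y | i < n ∧ y ∈ A i} := (MeasurableSet.const (i < n)).inter (hA i)
  exact MeasurableSet.iff h3 (MeasurableSet.const _)

/-- From a measurable family of open sets to a measurable family of sequences of intervals. -/
theorem exists_seq {O : Set (Y × ℝ)} (hO : GoodO O) {η ε : ENNReal} (hε : ε ≠ 0)
    (hη : ∀ y, volume {x | (y, x) ∈ O} ≤ η) :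
    ∃ ec : Y → ℕ → ℚ × ℚ, Measurable ec ∧ ∀ y, sumI volume (ec y) ≤ η + ε ∧
      {x | (y, x) ∈ O} ⊆ unI (ec y) := by
  classical
  obtain ⟨A, c, hA, rfl⟩ := hO
  obtain ⟨δ, hδ0, hδ⟩ := ENNReal.exists_pos_sum_of_countable' hε ℕ
  have hex : ∀ (n : ℕ) (s : Finset ℕ), ∃ e : ℕ → ℚ × ℚ, DD c n s ⊆ unI e ∧
      sumI volume e ≤ volume (DD c n s) + δ n := fun n s =>
    exists_cover _ (volume_DD_ne_top c n s) (hδ0 n).ne'
  choose e he1 he2 using hex
  let ec : Y → ℕ → ℚ × ℚ := fun y k =>
    if y ∈ A k.unpair.1 then e k.unpair.1 (act A y k.unpair.1) k.unpair.2 else (0, 0)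
  refine ⟨ec, ?_, ?_⟩
  · refine measurable_pi_lambda _ fun k => ?_
    exact Measurable.ite (hA _) (measurable_act hA _ (fun s => e k.unpair.1 s k.unpair.2))
      measurable_const
  · intro y
    have hpair : ∀ n i, ec y (Nat.pair n i) = if y ∈ A n then e n (act A y n) i else (0, 0) := by
      intro n i
      simp only [ec, Nat.unpair_pair]
    let D : ℕ → Set ℝ := fun n => if y ∈ A n then DD c n (act A y n) else ∅
    have hDmem : ∀ n x, x ∈ D n ↔ y ∈ A n ∧ x ∈ DD c n (act A y n) := by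
      intro n x
      by_cases h : y ∈ A n
      · simp [D, h]
      · simp [D, h]
    have hDm : ∀ n, MeasurableSet (D n) := by
      intro n
      simp only [D]
      split_ifs
      · exact measurableSet_DD _ _ _
      · exact MeasurableSet.empty
    have hDd : Pairwise (fun i j => Disjoint (D i) (D j)) := by
      have hlt : ∀ i j, i < j → Disjoint (D i) (D j) := by
        intro i j hij
        rw [Set.disjoint_left]
        intro x hx hx'
        rw [hDmem] at hx hx'
        apply hx'.2.2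
        rw [Set.mem_iUnion₂]
        exact ⟨i, mem_act.2 ⟨hij, hx.1⟩, hx.2.1⟩
      intro i j hij
      rcases lt_or_gt_of_ne hij with h | h
      · exact hlt i j h
      · exact (hlt j i h).symm
    have hDsub : (⋃ n, D n) ⊆ {x | (y, x) ∈ {z : Y × ℝ | ∃ n, z.1 ∈ A n ∧
        ((c n).1 : ℝ) < z.2 ∧ z.2 < ((c n).2 : ℝ)}} := by
      intro x hx
      obtain ⟨n, hn⟩ := Set.mem_iUnion.1 hx
      rw [hDmem] at hn
      exact ⟨n, hn.1, hn.2.1.1, hn.2.1.2⟩
    refine ⟨?_, ?_⟩
    · calc sumI volume (ec y) = ∑' k, volume (II (ec y k)) := rfl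
        _ = ∑' p : ℕ × ℕ, volume (II (ec y (Nat.pair p.1 p.2))) :=
            (Nat.pairEquiv.tsum_eq (fun k => volume (II (ec y k)))).symm
        _ = ∑' n, ∑' i, volume (II (ec y (Nat.pair n i))) :=
            ENNReal.tsum_prod (f := fun n i => volume (II (ec y (Nat.pair n i))))
        _ ≤ ∑' n, (volume (D n) + δ n) := by
            refine ENNReal.tsum_le_tsum fun n => ?_
            by_cases h : y ∈ A n
            · have h2 : D n = DD c n (act A y n) := by
                simp only [D, if_pos h]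
              rw [h2]
              refine le_trans (le_of_eq ?_) (he2 n (act A y n))
              unfold sumI II
              refine tsum_congr fun i => ?_
              rw [hpair, if_pos h]
            · have h2 : ∀ i, volume (II (ec y (Nat.pair n i))) = 0 := by
                intro i
                rw [hpair, if_neg h]
                simp [II]
              rw [ENNReal.tsum_eq_zero.2 h2]
              exact zero_le
        _ = ∑' n, volume (D n) + ∑' n, δ n := ENNReal.tsum_add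
        _ = volume (⋃ n, D n) + ∑' n, δ n := by rw [measure_iUnion hDd hDm]
        _ ≤ η + ε := add_le_add ((measure_mono hDsub).trans (hη y)) hδ.le
    · rintro x ⟨n, hn1, hn2, hn3⟩
      have hex2 : ∃ n, y ∈ A n ∧ x ∈ II (c n) := ⟨n, hn1, hn2, hn3⟩
      obtain ⟨h1, h2⟩ := Nat.find_spec hex2
      have hmin := fun m => Nat.find_min hex2 (m := m)
      generalize Nat.find hex2 = n0 at h1 h2 hmin
      have hx : x ∈ DD c n0 (act A y n0) := by
        refine ⟨h2, ?_⟩
        intro h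
        rw [Set.mem_iUnion₂] at h
        obtain ⟨i, hi, hxi⟩ := h
        rw [mem_act] at hi
        exact hmin i hi.1 ⟨hi.2, hxi⟩
      obtain ⟨i, hi⟩ := Set.mem_iUnion.1 (he1 n0 _ hx)
      refine Set.mem_iUnion.2 ⟨Nat.pair n0 i, ?_⟩
      rw [hpair, if_pos h1]
      exact hi

/-- Measurable covers of null sets by rational intervals. -/
theorem coverSel (Z : Set (Y × ℝ)) (hZ : MeasurableSet Z) (h0 : ∀ y, volume {x | (y, x) ∈ Z} = 0)
    {ε : ENNReal} (hε : ε ≠ 0) :
    ∃ ec : Y → ℕ → ℚ × ℚ, Measurable ec ∧ ∀ y, sumI volume (ec y) ≤ ε ∧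
      {x | (y, x) ∈ Z} ⊆ unI (ec y) := by
  have hε2 : ε / 2 ≠ 0 := (ENNReal.half_pos hε).ne'
  obtain ⟨δ, hδ0, hδ⟩ := ENNReal.exists_pos_sum_of_countable' hε2 ℕ
  have hfin : ∀ j : ℕ, IsFiniteMeasure ((volume : Measure ℝ).restrict
      (Set.Ioo (-(j : ℝ)) (j : ℝ))) := by
    intro j
    refine ⟨?_⟩
    rw [Measure.restrict_apply_univ, Real.volume_Ioo]
    exact ENNReal.ofReal_lt_top
  have hreg := fun j : ℕ => @regular Y _ ((volume : Measure ℝ).restrict
    (Set.Ioo (-(j : ℝ)) (j : ℝ))) (hfin j) Z hZ (δ j) (hδ0 j).ne'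
  choose O F h1 h2 h3 h4 h5 using hreg
  let O' : ℕ → Set (Y × ℝ) := fun j => O j ∩ ((Set.univ : Set Y) ×ˢ Set.Ioo (-(j : ℝ)) (j : ℝ))
  have hO' : ∀ j, GoodO (O' j) := fun j =>
    (h1 j).inter (GoodO.prod MeasurableSet.univ isOpen_Ioo)
  have hvol : ∀ y, volume {x | (y, x) ∈ ⋃ j, O' j} ≤ ε / 2 := by
    intro y
    have hsub : {x | (y, x) ∈ ⋃ j, O' j} ⊆ ⋃ j, {x | (y, x) ∈ O' j} := by
      intro x hx
      obtain ⟨j, hj⟩ := Set.mem_iUnion.1 hx
      exact Set.mem_iUnion.2 ⟨j, hj⟩
    calc _ ≤ volume (⋃ j, {x | (y, x) ∈ O' j}) := measure_mono hsub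
      _ ≤ ∑' j, volume {x | (y, x) ∈ O' j} := measure_iUnion_le _
      _ ≤ ∑' j, δ j := by
          refine ENNReal.tsum_le_tsum fun j => ?_
          have hF0 : volume {x | (y, x) ∈ F j} = 0 :=
            measure_mono_null (fun x hx => h3 j hx) (h0 y)
          have hs2 : {x | (y, x) ∈ O' j} ⊆
              ({x | (y, x) ∈ O j ∧ (y, x) ∉ F j} ∩ Set.Ioo (-(j : ℝ)) (j : ℝ)) ∪
                {x | (y, x) ∈ F j} := by
            intro x hx
            have hx1 : (y, x) ∈ O j := hx.1
            have hx2 : x ∈ Set.Ioo (-(j : ℝ)) (j : ℝ) := hx.2.2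
            by_cases hxF : (y, x) ∈ F j
            · exact Or.inr hxF
            · exact Or.inl ⟨⟨hx1, hxF⟩, hx2⟩
          calc volume {x | (y, x) ∈ O' j}
              ≤ volume (({x | (y, x) ∈ O j ∧ (y, x) ∉ F j} ∩ Set.Ioo (-(j : ℝ)) (j : ℝ)) ∪
                {x | (y, x) ∈ F j}) := measure_mono hs2
            _ ≤ volume ({x | (y, x) ∈ O j ∧ (y, x) ∉ F j} ∩ Set.Ioo (-(j : ℝ)) (j : ℝ)) +
                volume {x | (y, x) ∈ F j} := measure_union_le _ _
            _ = volume ({x | (y, x) ∈ O j ∧ (y, x) ∉ F j} ∩ Set.Ioo (-(j : ℝ)) (j : ℝ)) := by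
                rw [hF0, add_zero]
            _ = (volume.restrict (Set.Ioo (-(j : ℝ)) (j : ℝ)))
                  {x | (y, x) ∈ O j ∧ (y, x) ∉ F j} := by
                rw [Measure.restrict_apply' measurableSet_Ioo]
            _ ≤ δ j := h5 j y
      _ ≤ ε / 2 := hδ.le
  obtain ⟨ec, hec, hec2⟩ := exists_seq (GoodO.iUnion hO') hε2 hvol
  refine ⟨ec, hec, fun y => ⟨?_, ?_⟩⟩
  · have := (hec2 y).1
    rwa [ENNReal.add_halves] at this
  · refine subset_trans ?_ (hec2 y).2
    intro x hx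
    obtain ⟨j, hj⟩ := exists_nat_gt |x|
    rw [abs_lt] at hj
    exact Set.mem_iUnion.2 ⟨j, h4 j hx, trivial, hj⟩

theorem c5 : CoverSelStmt := by
  intro Z hZ h0 k
  have hε : ((1 / 2 : ENNReal)) ^ k ≠ 0 := by
    refine pow_ne_zero k ?_
    simp
  exact coverSel Z hZ h0 hε

end Pool.Agent.FL.H88
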