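import Pool.Agent.Helper93_FL.CDefs

/-!
# C5: covers of sets of finite measure by rational intervals
-/

open MeasureTheory Set

namespace Pool.Agent.FL.H88

/-- A set of finite measure is covered by rational intervals of almost the same total length. -/
theorem exists_cover (D : Set ℝ) (hD : volume D ≠ ⊤) {ε : ENNReal} (hε : ε ≠ 0) :
    ∃ c : ℕ → ℚ × ℚ, D ⊆ unI c ∧ sumI volume c ≤ volume D + ε := by
  have hε2 : ε / 2 ≠ 0 := (ENNReal.half_pos hε).ne'
  have h1 : volume D < volume D + ε / 2 := ENNReal.lt_add_right hD hε2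
  have hv : (volume : Measure ℝ) D = StieltjesFunction.id.outer D := by
    rw [Real.volume_eq_stieltjes_id, StieltjesFunction.measure]
    rfl
  have h2 : StieltjesFunction.id.outer D < volume D + ε / 2 := by rwa [← hv]
  unfold StieltjesFunction.outer at h2
  rw [OuterMeasure.ofFunction_apply] at h2
  simp only [iInf_lt_iff] at h2
  obtain ⟨t, ht, hsum⟩ := h2
  obtain ⟨δ, hδ0, hδ⟩ := ENNReal.exists_pos_sum_of_countable' hε2 ℕ
  have hlen : ∀ n, StieltjesFunction.id.length (t n) ≠ ⊤ := by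
    intro n hn
    have := ENNReal.le_tsum (f := fun n => StieltjesFunction.id.length (t n)) n
    rw [hn] at this
    exact absurd (lt_of_le_of_lt this hsum) (not_lt.2 le_top)
  have hbot : (botSet : Set ℝ) = ∅ := by
    ext x
    simp only [Set.mem_empty_iff_false, iff_false]
    intro hx
    exact not_isBot x hx
  have hex : ∀ n, ∃ x : ℚ × ℚ, t n ⊆ Set.Ioo (x.1 : ℝ) x.2 ∧
      volume (Set.Ioo (x.1 : ℝ) x.2) ≤ StieltjesFunction.id.length (t n) + δ n := by
    intro n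
    have h3 : StieltjesFunction.id.length (t n) <
        StieltjesFunction.id.length (t n) + δ n / 2 :=
      ENNReal.lt_add_right (hlen n) (ENNReal.half_pos (hδ0 n).ne').ne'
    nth_rewrite 1 [StieltjesFunction.length_eq] at h3
    simp only [iInf_lt_iff] at h3
    obtain ⟨a, b, hab, hlt⟩ := h3
    rw [hbot, Set.sdiff_empty] at hab
    have hlt' : ENNReal.ofReal (b - a) <
      StieltjesFunction.id.length (t n) + δ n / 2 := hlt
    obtain ⟨r, hr0, hr⟩ : ∃ r : ℝ, 0 < r ∧ ENNReal.ofReal (2 * r) ≤ δ n / 2 := by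
      obtain ⟨r, hr1, hr2⟩ := ENNReal.lt_iff_exists_nnreal_btwn.1
        (ENNReal.half_pos (hδ0 n).ne')
      have hr1' : 0 < r := by exact_mod_cast hr1
      refine ⟨r / 2, by positivity, ?_⟩
      rw [mul_div_cancel₀ _ (by norm_num : (2 : ℝ) ≠ 0)]
      simpa using hr2.le
    obtain ⟨p, hp1, hp2⟩ := exists_rat_btwn (show a - r < a by linarith)
    obtain ⟨q, hq1, hq2⟩ := exists_rat_btwn (show b < b + r by linarith)
    refine ⟨(p, q), ?_, ?_⟩
    · intro x hx
      have := hab hx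
      exact ⟨lt_trans hp2 this.1, lt_of_le_of_lt this.2 hq1⟩
    · rw [Real.volume_Ioo]
      calc ENNReal.ofReal ((q : ℝ) - p) ≤ ENNReal.ofReal ((b - a) + 2 * r) :=
            ENNReal.ofReal_le_ofReal (by linarith)
        _ ≤ ENNReal.ofReal (b - a) + ENNReal.ofReal (2 * r) := ENNReal.ofReal_add_le
        _ ≤ (StieltjesFunction.id.length (t n) + δ n / 2) + δ n / 2 :=
            add_le_add hlt'.le hr
        _ = _ := by rw [add_assoc, ENNReal.add_halves]
  choose c hc1 hc2 using hex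
  refine ⟨c, ?_, ?_⟩
  · intro x hx
    obtain ⟨n, hn⟩ := Set.mem_iUnion.1 (ht hx)
    exact Set.mem_iUnion.2 ⟨n, hc1 n hn⟩
  · unfold sumI
    calc ∑' n, volume (Set.Ioo ((c n).1 : ℝ) ((c n).2 : ℝ))
        ≤ ∑' n, (StieltjesFunction.id.length (t n) + δ n) := ENNReal.tsum_le_tsum hc2
      _ = ∑' n, StieltjesFunction.id.length (t n) + ∑' n, δ n := ENNReal.tsum_add
      _ ≤ (volume D + ε / 2) + ε / 2 := add_le_add hsum.le hδ.le
      _ = _ := by rw [add_assoc, ENNReal.add_halves]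

/-! ## Measurable families of open sets -/

variable {Y : Type*} [MeasurableSpace Y]

/-- Countable unions of products of a measurable set with a rational open interval. -/
def GoodO (O : Set (Y × ℝ)) : Prop :=
  ∃ (A : ℕ → Set Y) (c : ℕ → ℚ × ℚ), (∀ n, MeasurableSet (A n)) ∧
    O = {z | ∃ n, z.1 ∈ A n ∧ ((c n).1 : ℝ) < z.2 ∧ z.2 < ((c n).2 : ℝ)}

theorem GoodO.measurableSet {O : Set (Y × ℝ)} (h : GoodO O) : MeasurableSet O := by
  obtain ⟨A, c, hA, rfl⟩ := h
  have : {z : Y × ℝ | ∃ n, z.1 ∈ A n ∧ ((c n).1 : ℝ) < z.2 ∧ z.2 < ((c n).2 : ℝ)} =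
      ⋃ n, (A n ×ˢ Set.Ioo ((c n).1 : ℝ) ((c n).2 : ℝ)) := by
    ext z
    simp [Set.mem_prod]
  rw [this]
  exact MeasurableSet.iUnion fun n => (hA n).prod measurableSet_Ioo

theorem GoodO.iUnion {O : ℕ → Set (Y × ℝ)} (h : ∀ i, GoodO (O i)) : GoodO (⋃ i, O i) := by
  choose A c hA hO using h
  refine ⟨fun n => A n.unpair.1 n.unpair.2, fun n => c n.unpair.1 n.unpair.2,
    fun n => hA _ _, ?_⟩
  ext z
  rw [Set.mem_iUnion]
  constructor
  · rintro ⟨i, hi⟩
    rw [hO i] at hi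
    obtain ⟨n, hn⟩ := hi
    refine ⟨Nat.pair i n, ?_⟩
    simpa [Nat.unpair_pair] using hn
  · rintro ⟨n, hn⟩
    refine ⟨n.unpair.1, ?_⟩
    rw [hO]
    exact ⟨n.unpair.2, hn⟩

theorem GoodO.empty : GoodO (∅ : Set (Y × ℝ)) := by
  refine ⟨fun _ => ∅, fun _ => (0, 0), fun _ => MeasurableSet.empty, ?_⟩
  ext z
  simp

/-- An enumeration of the pairs of rational numbers. -/
theorem exists_enumQ : ∃ e : ℕ → ℚ × ℚ, Function.Surjective e :=
  exists_surjective_nat (ℚ × ℚ)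

theorem GoodO.prod {A : Set Y} (hA : MeasurableSet A) {U : Set ℝ} (hU : IsOpen U) :
    GoodO (A ×ˢ U) := by
  classical
  obtain ⟨e, he⟩ := exists_enumQ
  refine ⟨fun n => if Set.Ioo ((e n).1 : ℝ) ((e n).2 : ℝ) ⊆ U then A else ∅, e, ?_, ?_⟩
  · intro n
    dsimp only
    split_ifs
    · exact hA
    · exact MeasurableSet.empty
  · ext z
    constructor
    · rintro ⟨h1, h2⟩
      obtain ⟨δ, hδ0, hδ⟩ := Metric.isOpen_iff.1 hU z.2 h2
      obtain ⟨p, hp1, hp2⟩ := exists_rat_btwn (show z.2 - δ < z.2 by linarith)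
      obtain ⟨q, hq1, hq2⟩ := exists_rat_btwn (show z.2 < z.2 + δ by linarith)
      obtain ⟨n, hn⟩ := he (p, q)
      refine ⟨n, ?_, ?_, ?_⟩
      · have : Set.Ioo ((e n).1 : ℝ) ((e n).2 : ℝ) ⊆ U := by
          rw [hn]
          intro x hx
          apply hδ
          rw [Metric.mem_ball, Real.dist_eq, abs_lt]
          have h3 : (p : ℝ) < x := hx.1
          have h4 : x < q := hx.2
          constructor <;> linarith
        change z.1 ∈ (if Set.Ioo ((e n).1 : ℝ) ((e n).2 : ℝ) ⊆ U then A else ∅)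
        rw [if_pos this]
        exact h1
      · rw [hn]
        exact hp2
      · rw [hn]
        exact hq1
    · rintro ⟨n, h1, h2, h3⟩
      change z.1 ∈ (if Set.Ioo ((e n).1 : ℝ) ((e n).2 : ℝ) ⊆ U then A else ∅) at h1
      by_cases h : Set.Ioo ((e n).1 : ℝ) ((e n).2 : ℝ) ⊆ U
      · rw [if_pos h] at h1
        exact ⟨h1, h ⟨h2, h3⟩⟩
      · rw [if_neg h] at h1
        exact absurd h1 (Set.notMem_empty _)

theorem GoodO.union {O O' : Set (Y × ℝ)} (h : GoodO O) (h' : GoodO O') : GoodO (O ∪ O') := by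
  have : O ∪ O' = ⋃ i : ℕ, (if i = 0 then O else O') := by
    ext z
    simp only [Set.mem_union, Set.mem_iUnion]
    constructor
    · rintro (hz | hz)
      · exact ⟨0, by simpa using hz⟩
      · exact ⟨1, by simpa using hz⟩
    · rintro ⟨i, hi⟩
      split_ifs at hi
      · exact Or.inl hi
      · exact Or.inr hi
  rw [this]
  refine GoodO.iUnion fun i => ?_
  split_ifs
  · exact h
  · exact h'

theorem GoodO.inter {O O' : Set (Y × ℝ)} (h : GoodO O) (h' : GoodO O') : GoodO (O ∩ O') := by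
  obtain ⟨A, c, hA, hO⟩ := h
  obtain ⟨A', c', hA', hO'⟩ := h'
  refine ⟨fun n => A n.unpair.1 ∩ A' n.unpair.2, fun n => (max (c n.unpair.1).1 (c' n.unpair.2).1,
    min (c n.unpair.1).2 (c' n.unpair.2).2), fun n => (hA _).inter (hA' _), ?_⟩
  ext z
  rw [Set.mem_inter_iff, hO, hO']
  constructor
  · rintro ⟨⟨n, h1, h2, h3⟩, ⟨m, h4, h5, h6⟩⟩
    refine ⟨Nat.pair n m, ?_⟩
    simp only [Nat.unpair_pair]
    refine ⟨⟨h1, h4⟩, ?_, ?_⟩
    · push_cast
      exact max_lt h2 h5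
    · push_cast
      exact lt_min h3 h6
  · rintro ⟨n, ⟨h1, h4⟩, h2, h3⟩
    push_cast at h2 h3
    rw [max_lt_iff] at h2
    rw [lt_min_iff] at h3
    exact ⟨⟨_, h1, h2.1, h3.1⟩, ⟨_, h4, h2.2, h3.2⟩⟩

theorem GoodO.univ : GoodO (Set.univ : Set (Y × ℝ)) := by
  have := GoodO.prod (MeasurableSet.univ (α := Y)) isOpen_univ
  rwa [Set.univ_prod_univ] at this

theorem GoodO.biInter_lt {O : ℕ → Set (Y × ℝ)} (h : ∀ i, GoodO (O i)) (n : ℕ) :
    GoodO {z | ∀ i < n, z ∈ O i} := by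
  induction n with
  | zero =>
    have : {z : Y × ℝ | ∀ i < 0, z ∈ O i} = Set.univ := by
      ext z
      simp
    rw [this]
    exact GoodO.univ
  | succ n ih =>
    have : {z : Y × ℝ | ∀ i < n + 1, z ∈ O i} = {z | ∀ i < n, z ∈ O i} ∩ O n := by
      ext z
      constructor
      · intro hz
        exact ⟨fun i hi => hz i (by omega), hz n (by omega)⟩
      · rintro ⟨h1, h2⟩ i hi
        rcases Nat.lt_succ_iff_lt_or_eq.1 hi with h3 | h3
        · exact h1 i h3
        · rw [h3]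
          exact h2
    rw [this]
    exact ih.inter (h n)

/-- Regularity, uniformly in the parameter. -/
theorem regular (μ : Measure ℝ) [IsFiniteMeasure μ] (W : Set (Y × ℝ)) (hW : MeasurableSet W) :
    ∀ ε : ENNReal, ε ≠ 0 → ∃ O F : Set (Y × ℝ), GoodO O ∧ GoodO Fᶜ ∧ F ⊆ W ∧ W ⊆ O ∧
      ∀ y, μ {x | (y, x) ∈ O ∧ (y, x) ∉ F} ≤ ε := by
  rw [← generateFrom_prod] at hW
  refine MeasurableSpace.generateFrom_induction _ (fun W _ => ∀ ε : ENNReal, ε ≠ 0 →
    ∃ O F : Set (Y × ℝ), GoodO O ∧ GoodO Fᶜ ∧ F ⊆ W ∧ W ⊆ O ∧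
      ∀ y, μ {x | (y, x) ∈ O ∧ (y, x) ∉ F} ≤ ε) ?_ ?_ ?_ ?_ W hW
  · rintro _ ⟨A, hA, B, hB, rfl⟩ _ ε hε
    have hA : MeasurableSet A := hA
    have hB : MeasurableSet B := hB
    have hε2 : ε / 2 ≠ 0 := (ENNReal.half_pos hε).ne'
    obtain ⟨U, hBU, hU, _, hUB⟩ := hB.exists_isOpen_sdiff_lt (measure_ne_top μ B) hε2
    obtain ⟨K, hKB, hK, hBK⟩ := hB.exists_isClosed_sdiff_lt (measure_ne_top μ B) hε2
    refine ⟨A ×ˢ U, A ×ˢ K, GoodO.prod hA hU, ?_, Set.prod_mono_right hKB,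
      Set.prod_mono_right hBU, ?_⟩
    · have : (A ×ˢ K)ᶜ = (Aᶜ ×ˢ (Set.univ : Set ℝ)) ∪ ((Set.univ : Set Y) ×ˢ Kᶜ) := by
        ext z
        simp only [Set.mem_compl_iff, Set.mem_prod, Set.mem_union, Set.mem_univ]
        tauto
      rw [this]
      exact (GoodO.prod hA.compl isOpen_univ).union (GoodO.prod MeasurableSet.univ hK.isOpen_compl)
    · intro y
      have hsub : {x | (y, x) ∈ A ×ˢ U ∧ (y, x) ∉ A ×ˢ K} ⊆ (U \ B) ∪ (B \ K) := by
        rintro x ⟨⟨h1, h2⟩, h3⟩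
        have h1 : y ∈ A := h1
        have h2 : x ∈ U := h2
        by_cases hxB : x ∈ B
        · right
          exact ⟨hxB, fun hxK => h3 ⟨h1, hxK⟩⟩
        · left
          exact ⟨h2, hxB⟩
      calc _ ≤ μ ((U \ B) ∪ (B \ K)) := measure_mono hsub
        _ ≤ μ (U \ B) + μ (B \ K) := measure_union_le _ _
        _ ≤ ε / 2 + ε / 2 := add_le_add hUB.le hBK.le
        _ = ε := ENNReal.add_halves ε
  · intro ε _
    refine ⟨∅, ∅, GoodO.empty, ?_, subset_rfl, subset_rfl, ?_⟩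
    · rw [Set.compl_empty]
      exact GoodO.univ
    · intro y
      simp
  · intro t _ ih ε hε
    obtain ⟨O, F, h1, h2, h3, h4, h5⟩ := ih ε hε
    refine ⟨Fᶜ, Oᶜ, h2, ?_, Set.compl_subset_compl.2 h4, Set.compl_subset_compl.2 h3, ?_⟩
    · rwa [compl_compl]
    · intro y
      refine le_trans (measure_mono ?_) (h5 y)
      rintro x ⟨h6, h7⟩
      refine ⟨?_, h6⟩
      by_contra h8
      exact h7 h8
  · intro s _ ih ε hε
    have hε2 : ε / 2 ≠ 0 := (ENNReal.half_pos hε).ne'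
    obtain ⟨δ, hδ0, hδ⟩ := ENNReal.exists_pos_sum_of_countable' hε2 ℕ
    have ih' := fun i => ih i (δ i) (hδ0 i).ne'
    choose O F h1 h2 h3 h4 h5 using ih'
    have hFm : ∀ i, MeasurableSet (F i) := fun i => by
      have := (h2 i).measurableSet.compl
      rwa [compl_compl] at this
    -- the remaining part of the union of the inner sets
    let D : ℕ → Set (Y × ℝ) := fun n => (⋃ i, F i) ∩ {z | ∀ i < n, z ∈ (F i)ᶜ}
    have hDm : ∀ n, MeasurableSet (D n) := fun n =>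
      (MeasurableSet.iUnion hFm).inter (GoodO.biInter_lt h2 n).measurableSet
    have hDanti : Antitone D := by
      intro n m hnm z hz
      exact ⟨hz.1, fun i hi => hz.2 i (lt_of_lt_of_le hi hnm)⟩
    have hDinter : ⋂ n, D n = ∅ := by
      ext z
      simp only [Set.mem_iInter, Set.mem_empty_iff_false, iff_false]
      intro h
      obtain ⟨i, hi⟩ := Set.mem_iUnion.1 (h 0).1
      exact (h (i + 1)).2 i (Nat.lt_succ_self i) hi
    have hex : ∀ y, ∃ n, μ (Prod.mk y ⁻¹' (D n)) ≤ ε / 2 := by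
      intro y
      have ht := tendsto_measure_iInter_atTop (μ := μ) (s := fun n => Prod.mk y ⁻¹' (D n))
        (fun n => (measurable_prodMk_left (hDm n)).nullMeasurableSet)
        (fun n m hnm => Set.preimage_mono (hDanti hnm)) ⟨0, measure_ne_top _ _⟩
      have h0 : ⋂ n, Prod.mk y ⁻¹' (D n) = (∅ : Set ℝ) := by
        rw [← Set.preimage_iInter, hDinter, Set.preimage_empty]
      rw [h0, measure_empty] at ht
      have := ht.eventually (gt_mem_nhds (pos_iff_ne_zero.2 hε2))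
      obtain ⟨n, hn⟩ := this.exists
      exact ⟨n, le_of_lt hn⟩
    classical
    let nf : Y → ℕ := fun y => Nat.find (hex y)
    have hnf : Measurable nf := by
      refine measurable_find _ fun k => ?_
      exact measurableSet_le (measurable_measure_prodMk_left (hDm k)) measurable_const
    refine ⟨⋃ i, O i, {z | ∃ i < nf z.1, z ∈ F i}, GoodO.iUnion h1, ?_, ?_,
      Set.iUnion_mono h4, ?_⟩
    · have : {z : Y × ℝ | ∃ i < nf z.1, z ∈ F i}ᶜ =
          ⋃ n, (({y | nf y = n} ×ˢ (Set.univ : Set ℝ)) ∩ {z | ∀ i < n, z ∈ (F i)ᶜ}) := by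
        ext z
        simp only [Set.mem_compl_iff, Set.mem_ofPred_eq, Set.mem_iUnion, Set.mem_inter_iff,
          Set.mem_prod, Set.mem_univ, and_true]
        constructor
        · intro h
          refine ⟨nf z.1, rfl, ?_⟩
          intro i hi hz
          exact h ⟨i, hi, hz⟩
        · rintro ⟨n, hn, h⟩ ⟨i, hi, hz⟩
          rw [hn] at hi
          exact h i hi hz
      rw [this]
      refine GoodO.iUnion fun n => ?_
      exact (GoodO.prod (hnf (measurableSet_singleton n)) isOpen_univ).inter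
        (GoodO.biInter_lt h2 n)
    · rintro z ⟨i, _, hz⟩
      exact Set.mem_iUnion.2 ⟨i, h3 i hz⟩
    · intro y
      have hsub : {x | (y, x) ∈ ⋃ i, O i ∧ (y, x) ∉ {z : Y × ℝ | ∃ i < nf z.1, z ∈ F i}} ⊆
          (⋃ i, {x | (y, x) ∈ O i ∧ (y, x) ∉ F i}) ∪ Prod.mk y ⁻¹' (D (nf y)) := by
        rintro x ⟨h6, h7⟩
        obtain ⟨i, hi⟩ := Set.mem_iUnion.1 h6
        by_cases hF : ∃ j, (y, x) ∈ F j
        · right
          refine ⟨Set.mem_iUnion.2 hF, ?_⟩
          intro j hj hz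
          exact h7 ⟨j, hj, hz⟩
        · left
          push Not at hF
          exact Set.mem_iUnion.2 ⟨i, hi, hF i⟩
      calc _ ≤ μ ((⋃ i, {x | (y, x) ∈ O i ∧ (y, x) ∉ F i}) ∪ Prod.mk y ⁻¹' (D (nf y))) :=
            measure_mono hsub
        _ ≤ μ (⋃ i, {x | (y, x) ∈ O i ∧ (y, x) ∉ F i}) + μ (Prod.mk y ⁻¹' (D (nf y))) :=
            measure_union_le _ _
        _ ≤ (∑' i, μ {x | (y, x) ∈ O i ∧ (y, x) ∉ F i}) + ε / 2 :=
            add_le_add (measure_iUnion_le _) (Nat.find_spec (hex y))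
        _ ≤ (∑' i, δ i) + ε / 2 := by
            gcongr with i
            exact h5 i y
        _ ≤ ε / 2 + ε / 2 := by
            gcongr
        _ = ε := ENNReal.add_halves ε

end Pool.Agent.FL.H88
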