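import Pool.Agent.Helper93_FL.CDefs

/-!
# C6: decoding of reals and of sequences of intervals is measurable
-/

open MeasureTheory Set

namespace Pool.Agent.FL.H88

theorem meas_mem_nat (n : ℕ) : MeasurableSet {S : Set ℕ | n ∈ S} :=
  measurableSet_setOfmem n
where
  measurableSet_setOfmem (n : ℕ) : MeasurableSet {S : Set ℕ | n ∈ S} := by
    have h : Measurable (fun S : Set ℕ => n ∈ S) := measurable_set_mem n
    exact measurableSet_setOfPred.2 h

/-- A set valued function into sets of natural numbers is measurable if all membership sets are. -/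
theorem measurable_of_mem {Ω : Type*} [MeasurableSpace Ω] {f : Ω → Set ℕ}
    (h : ∀ n, MeasurableSet {x | n ∈ f x}) : Measurable f :=
  measurable_set_iff.2 fun n => measurableSet_setOfPred.1 (h n)

open Classical in
/-- Decoding of a real. -/
noncomputable def drE (S : Set ℕ) : EReal :=
  ⨆ n : ℕ, if n ∈ S then (((qe n : ℚ) : ℝ) : EReal) else ⊥

theorem measurable_drE : Measurable drE := by
  classical
  refine Measurable.iSup fun n => ?_
  exact Measurable.ite (meas_mem_nat n) measurable_const measurable_const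

theorem drE_cutS (r : ℝ) : drE (cutS r) = (r : EReal) := by
  classical
  refine le_antisymm ?_ ?_
  · refine iSup_le fun n => ?_
    by_cases h : n ∈ cutS r
    · rw [if_pos h]
      exact EReal.coe_le_coe_iff.2 (le_of_lt h)
    · rw [if_neg h]
      exact bot_le
  · refine le_of_forall_lt fun c hc => ?_
    obtain ⟨q, hq1, hq2⟩ := EReal.lt_iff_exists_rat_btwn.1 hc
    obtain ⟨m, hn⟩ : ∃ m, qe m = q := (Denumerable.eqv ℚ).symm.surjective q
    have hmem : m ∈ cutS r := by
      change ((qe m : ℚ) : ℝ) < r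
      rw [hn]
      exact EReal.coe_lt_coe_iff.1 hq2
    refine lt_of_lt_of_le hq1 ?_
    refine le_trans ?_ (le_iSup _ m)
    rw [if_pos hmem, hn]

/-- Decoding of a sequence of intervals. -/
theorem exists_enc (S : Set ℕ) (i : ℕ) :
    ∃ e, Nat.pair i e ∈ S ∨ ∀ e, Nat.pair i e ∉ S := by
  by_cases h : ∃ e, Nat.pair i e ∈ S
  · obtain ⟨e, he⟩ := h
    exact ⟨e, Or.inl he⟩
  · push Not at h
    exact ⟨0, Or.inr h⟩

open Classical in
/-- The least code. -/
noncomputable def leastE (S : Set ℕ) (i : ℕ) : ℕ := Nat.find (exists_enc S i)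

theorem measurable_leastE (i : ℕ) : Measurable (fun S : Set ℕ => leastE S i) := by
  classical
  unfold leastE
  refine measurable_find _ fun k => ?_
  have : {x : Set ℕ | Nat.pair i k ∈ x ∨ ∀ (e : ℕ), Nat.pair i e ∉ x} =
      {x | Nat.pair i k ∈ x} ∪ ⋂ e, {x | Nat.pair i e ∈ x}ᶜ := by
    ext x
    simp
  rw [this]
  exact (meas_mem_nat _).union (MeasurableSet.iInter fun e => (meas_mem_nat _).compl)

/-- Decoding. -/
noncomputable def deS (S : Set ℕ) (i : ℕ) : ℚ × ℚ :=
  (Encodable.decode (α := ℚ × ℚ) (leastE S i)).getD 0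

theorem measurable_deS : Measurable deS := by
  refine measurable_pi_lambda _ fun i => ?_
  exact (measurable_from_nat (f := fun n : ℕ => (Encodable.decode (α := ℚ × ℚ) n).getD 0)).comp
    (measurable_leastE i)

theorem leastE_grS (c : ℕ → ℚ × ℚ) (i : ℕ) : leastE (grS c) i = Encodable.encode (c i) := by
  classical
  unfold leastE
  rw [Nat.find_eq_iff]
  have key : ∀ e, Nat.pair i e ∈ grS c ↔ e = Encodable.encode (c i) := by
    intro e
    constructor
    · rintro ⟨j, hj⟩
      rw [Nat.pair_eq_pair] at hj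
      rw [hj.2, hj.1]
    · rintro rfl
      exact ⟨i, rfl⟩
  refine ⟨Or.inl ((key _).2 rfl), ?_⟩
  intro n hn h
  rcases h with h | h
  · exact absurd ((key _).1 h) hn.ne
  · exact h _ ((key _).2 rfl)

theorem deS_grS (c : ℕ → ℚ × ℚ) : deS (grS c) = c := by
  funext i
  unfold deS
  rw [leastE_grS, Encodable.encodek]
  rfl

theorem measurable_cutS : Measurable cutS :=
  measurable_of_mem fun n => measurableSet_lt measurable_const measurable_id

theorem measurable_grS : Measurable grS := by
  refine measurable_of_mem fun n => ?_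
  have : {c : ℕ → ℚ × ℚ | n ∈ grS c} =
      ⋃ i, (fun c : ℕ → ℚ × ℚ => c i) ⁻¹' {x | n = Nat.pair i (Encodable.encode x)} := by
    ext c
    simp [grS]
  rw [this]
  exact MeasurableSet.iUnion fun i => measurable_pi_apply i (MeasurableSet.of_discrete)

theorem c6 : DecodeStmt := by
  refine ⟨⟨fun S => (drE S).toReal, ?_, ?_, ?_⟩, ⟨deS, measurable_deS, deS_grS, ?_⟩,
    measurable_cutS, measurable_grS, ?_, ?_⟩
  · exact measurable_ereal_toReal.comp measurable_drE
  · intro r
    change (drE (cutS r)).toReal = r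
    rw [drE_cutS]
    rfl
  · have : {S : Set ℕ | S = cutS (drE S).toReal} =
        ⋂ n, {S : Set ℕ | n ∈ S ↔ ((qe n : ℚ) : ℝ) < (drE S).toReal} := by
      ext S
      simp only [mem_ofPred_eq, mem_iInter]
      exact Set.ext_iff
    rw [this]
    refine MeasurableSet.iInter fun n => ?_
    have h1 := meas_mem_nat n
    have h2 : MeasurableSet {S : Set ℕ | ((qe n : ℚ) : ℝ) < (drE S).toReal} :=
      measurableSet_lt measurable_const (measurable_ereal_toReal.comp measurable_drE)
    exact h1.iff h2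
  · have : {S : Set ℕ | S = grS (deS S)} =
        ⋂ n, {S : Set ℕ | n ∈ S ↔ n ∈ grS (deS S)} := by
      ext S
      simp only [mem_ofPred_eq, mem_iInter]
      exact Set.ext_iff
    rw [this]
    refine MeasurableSet.iInter fun n => ?_
    have h1 := meas_mem_nat n
    have h2 : MeasurableSet {S : Set ℕ | n ∈ grS (deS S)} :=
      (measurable_grS.comp measurable_deS) h1
    exact h1.iff h2
  · intro ν
    unfold sumI
    refine Measurable.tsum fun n => ?_
    exact (Measurable.of_discrete (f := fun x : ℚ × ℚ => ν (Set.Ioo (x.1 : ℝ) (x.2 : ℝ)))).comp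
      (measurable_pi_apply n)
  · have : {z : (ℕ → ℚ × ℚ) × ℝ | z.2 ∈ unI z.1} =
        ⋃ n, ({z : (ℕ → ℚ × ℚ) × ℝ | (((z.1 n).1 : ℚ) : ℝ) < z.2} ∩
          {z : (ℕ → ℚ × ℚ) × ℝ | z.2 < (((z.1 n).2 : ℚ) : ℝ)}) := by
      ext z
      simp [unI]
    rw [this]
    refine MeasurableSet.iUnion fun n => ?_
    have h0 : Measurable (fun z : (ℕ → ℚ × ℚ) × ℝ => z.1 n) :=
      (measurable_pi_apply n).comp measurable_fst
    have h1 : Measurable (fun z : (ℕ → ℚ × ℚ) × ℝ => (((z.1 n).1 : ℚ) : ℝ)) :=
      (Measurable.of_discrete (f := fun x : ℚ × ℚ => ((x.1 : ℚ) : ℝ))).comp h0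
    have h2 : Measurable (fun z : (ℕ → ℚ × ℚ) × ℝ => (((z.1 n).2 : ℚ) : ℝ)) :=
      (Measurable.of_discrete (f := fun x : ℚ × ℚ => ((x.2 : ℚ) : ℝ))).comp h0
    exact (measurableSet_lt h1 measurable_snd).inter (measurableSet_lt measurable_snd h2)

end Pool.Agent.FL.H88
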