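import Pool.Agent.Helper93_FL.CDefs

/-!
# Digit expansions: basic facts
-/

open MeasureTheory Set

namespace Pool.Agent.FL.H88

/-- Product of the first `m` bases. -/
noncomputable def PB (m : ℕ) : ℝ := ∏ i ∈ Finset.range m, (bs i : ℝ)

theorem four_le_sz (m : ℕ) : 4 ≤ sz m := by
  unfold sz
  calc 4 = 2 ^ 2 := by norm_num
    _ ≤ (m + 2) ^ 2 := Nat.pow_le_pow_left (by omega) 2
    _ ≤ (m + 2) ^ (m + 2) := Nat.pow_le_pow_right (by omega) (by omega)

theorem sz_le_Lb (m : ℕ) : sz m ≤ Lb m := by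
  unfold Lb
  exact Nat.le_mul_of_pos_left _ (by positivity)

theorem four_le_Lb (m : ℕ) : 4 ≤ Lb m := (four_le_sz m).trans (sz_le_Lb m)

theorem Lb_le_bs (m : ℕ) : Lb m ≤ bs m := by
  unfold bs
  exact Nat.le_mul_of_pos_right _ (by positivity)

theorem four_le_bs (m : ℕ) : 4 ≤ bs m := (four_le_Lb m).trans (Lb_le_bs m)

theorem sz_le_bs (m : ℕ) : sz m ≤ bs m := (sz_le_Lb m).trans (Lb_le_bs m)

theorem bsR_pos (m : ℕ) : (0 : ℝ) < bs m := by exact_mod_cast bs_pos m

theorem PB_pos (m : ℕ) : 0 < PB m := Finset.prod_pos fun i _ => bsR_pos i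

theorem PB_zero : PB 0 = 1 := by simp [PB]

theorem PB_succ (m : ℕ) : PB (m + 1) = PB m * bs m := by
  unfold PB
  rw [Finset.prod_range_succ]

theorem four_pow_le_PB (m : ℕ) : (4 : ℝ) ^ m ≤ PB m := by
  unfold PB
  calc (4 : ℝ) ^ m = ∏ i ∈ Finset.range m, (4 : ℝ) := by simp
    _ ≤ _ := Finset.prod_le_prod (fun _ _ => by norm_num)
        (fun i _ => by exact_mod_cast four_le_bs i)

theorem term_eq (c : ℕ → ℕ) (m : ℕ) :
    (c m : ℝ) / ∏ i ∈ Finset.range (m + 1), (bs i : ℝ) = (c m : ℝ) / PB (m + 1) := rfl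

theorem term_le {c : ℕ} {m : ℕ} (h : c ≤ bs m) : (c : ℝ) / PB (m + 1) ≤ (1 / 4) ^ m := by
  rw [PB_succ, div_le_iff₀ (mul_pos (PB_pos m) (bsR_pos m))]
  have h1 : (1 : ℝ) ≤ (1 / 4) ^ m * PB m := by
    calc (1 : ℝ) = (1 / 4) ^ m * 4 ^ m := by rw [← mul_pow]; norm_num
      _ ≤ _ := mul_le_mul_of_nonneg_left (four_pow_le_PB m) (by positivity)
  have h2 : (c : ℝ) ≤ bs m := by exact_mod_cast h
  calc (c : ℝ) ≤ 1 * bs m := by rw [one_mul]; exact h2
    _ ≤ (1 / 4) ^ m * PB m * bs m := mul_le_mul_of_nonneg_right h1 (bsR_pos m).le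
    _ = _ := by ring

theorem term_nonneg (c m : ℕ) : (0 : ℝ) ≤ (c : ℝ) / PB (m + 1) :=
  div_nonneg (Nat.cast_nonneg c) (PB_pos _).le

theorem summable_term {c : ℕ → ℕ} (h : ∀ m, c m ≤ bs m) :
    Summable (fun m => (c m : ℝ) / PB (m + 1)) :=
  Summable.of_nonneg_of_le (fun m => term_nonneg _ m) (fun m => term_le (h m))
    (summable_geometric_of_lt_one (by norm_num) (by norm_num))

theorem Dr_eq (c : ℕ → ℕ) : Dr c = ∑' m, (c m : ℝ) / PB (m + 1) := rfl

theorem s0_lt (m : ℕ) : s0 m < bs m := by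
  unfold s0 bs
  have h1 : 0 < Lb m := lt_of_lt_of_le (by norm_num) (four_le_Lb m)
  have h2 : 0 < 2 ^ Lb m := by positivity
  calc (2 ^ Lb m - 1) * Lb m < 2 ^ Lb m * Lb m :=
        Nat.mul_lt_mul_of_pos_right (by omega) h1
    _ = _ := Nat.mul_comm _ _

theorem r0b : R0bStmt := by
  intro n x t h
  have hx : Summable (fun m => ((x m).val : ℝ) / PB (m + 1)) :=
    summable_term (c := fun m => (x m).val) fun m => (x m).isLt.le
  have ht : Summable (fun m => ((t m).val : ℝ) / PB (m + 1)) :=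
    summable_term (c := fun m => (t m).val) fun m => (t m).isLt.le.trans (sz_le_bs m)
  change (∑' m, ((x m).val : ℝ) / PB (m + 1)) + (∑' m, ((t m).val : ℝ) / PB (m + 1)) +
    (∑ m ∈ Finset.range n, ((s0 m : ℝ) - (x m).val - (t m).val) / PB (m + 1)) =
    ∑' m, ((cD n x t m).val : ℝ) / PB (m + 1)
  rw [← hx.tsum_add ht]
  have hg : (∑ m ∈ Finset.range n, ((s0 m : ℝ) - (x m).val - (t m).val) / PB (m + 1)) =
      ∑' m, (if m < n then ((s0 m : ℝ) - (x m).val - (t m).val) / PB (m + 1) else 0) := by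
    rw [tsum_eq_sum (s := Finset.range n)]
    · refine Finset.sum_congr rfl fun m hm => ?_
      rw [if_pos (Finset.mem_range.1 hm)]
    · intro m hm
      rw [if_neg (fun h => hm (Finset.mem_range.2 h))]
  have hgs : Summable (fun m => if m < n then ((s0 m : ℝ) - (x m).val - (t m).val) / PB (m + 1)
      else 0) := by
    refine summable_of_ne_finset_zero (s := Finset.range n) ?_
    intro m hm
    rw [if_neg (fun h => hm (Finset.mem_range.2 h))]
  rw [hg, ← (hx.add ht).tsum_add hgs]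
  refine tsum_congr fun m => ?_
  by_cases hm : m < n
  · rw [if_pos hm]
    have : ((cD n x t m).val : ℕ) = s0 m := by
      unfold cD
      simp only [if_pos hm]
      exact Nat.mod_eq_of_lt (s0_lt m)
    rw [this]
    ring
  · rw [if_neg hm]
    have : ((cD n x t m).val : ℕ) = (x m).val + (t m).val := by
      unfold cD
      simp only [if_neg hm]
      exact Nat.mod_eq_of_lt (h m (not_lt.1 hm))
    rw [this]
    push_cast
    ring

end Pool.Agent.FL.H88
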