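import Pool.Agent.Helper88_FL.Dig

/-!
# R0: the singular measure and digits of real numbers
-/

open MeasureTheory Set

namespace Pool.Agent.FL.H88

/-! ## Probability measures -/

instance isProb_unifM (n : ℕ) [NeZero n] : IsProbabilityMeasure (unifM n) := by
  refine ⟨?_⟩
  unfold unifM
  rw [Measure.smul_apply, smul_eq_mul, Measure.count_apply_finite _ (Set.finite_univ)]
  simp only [Set.Finite.toFinset_univ, Finset.card_univ, Fintype.card_fin]
  exact ENNReal.inv_mul_cancel (by exact_mod_cast (NeZero.ne n)) (ENNReal.natCast_ne_top n)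

instance neZero_bs (m : ℕ) : NeZero (bs m) := ⟨(bs_pos m).ne'⟩

theorem unifM_singleton (n : ℕ) (a : Fin n) : unifM n {a} = (n : ENNReal)⁻¹ := by
  unfold unifM
  rw [Measure.smul_apply, Measure.count_singleton, smul_eq_mul, mul_one]

/-- The half set as a subset of `Fin (bs m)`. -/
def JF (m : ℕ) : Set (Fin (bs m)) := {x : Fin (bs m) | inJ m x.val}

theorem unifJ_def (m : ℕ) : unifJ m = (Measure.count (JF m))⁻¹ • Measure.count.restrict (JF m) := rfl

theorem isProb_mL : IsProbabilityMeasure mL := by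
  unfold mL
  infer_instance

open Classical in
theorem count_JF (h1 : R1Stmt) (m : ℕ) : 2 * Measure.count (JF m) = (bs m : ENNReal) := by
  have h : Measure.count (JF m) = (((Finset.range (bs m)).filter (inJ m)).card : ENNReal) := by
    rw [Measure.count_apply_finite _ (Set.toFinite _)]
    congr 1
    refine Finset.card_bij (fun a _ => a.val) ?_ ?_ ?_
    · intro a ha
      rw [Set.Finite.mem_toFinset] at ha
      rw [Finset.mem_filter, Finset.mem_range]
      exact ⟨a.isLt, ha⟩
    · intro a _ b _ hab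
      exact Fin.ext hab
    · intro b hb
      rw [Finset.mem_filter, Finset.mem_range] at hb
      exact ⟨⟨b, hb.1⟩, by rw [Set.Finite.mem_toFinset]; exact hb.2, rfl⟩
  rw [h]
  have := h1.2.1 m
  exact_mod_cast this

theorem count_JF_ne_zero (h1 : R1Stmt) (m : ℕ) : Measure.count (JF m) ≠ 0 := by
  intro h
  have := count_JF h1 m
  rw [h, mul_zero] at this
  exact (bs_pos m).ne' (by exact_mod_cast this.symm)

theorem count_JF_ne_top (m : ℕ) : Measure.count (JF m) ≠ ⊤ := by
  rw [Measure.count_apply_finite _ (Set.toFinite _)]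
  exact ENNReal.natCast_ne_top _

theorem isProb_unifJ (h1 : R1Stmt) (m : ℕ) : IsProbabilityMeasure (unifJ m) := by
  refine ⟨?_⟩
  rw [unifJ_def, Measure.smul_apply, Measure.restrict_apply_univ, smul_eq_mul]
  exact ENNReal.inv_mul_cancel (count_JF_ne_zero h1 m) (count_JF_ne_top m)

theorem isProb_mJ (h1 : R1Stmt) : IsProbabilityMeasure mJ := by
  unfold mJ
  have := isProb_unifJ h1
  infer_instance

theorem unifJ_compl (m : ℕ) : unifJ m (JF m)ᶜ = 0 := by
  rw [unifJ_def, Measure.smul_apply, Measure.restrict_apply (MeasurableSet.of_discrete)]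
  simp

theorem unifJ_singleton_le (h1 : R1Stmt) (m : ℕ) (a : Fin (bs m)) :
    unifJ m {a} ≤ ENNReal.ofReal (2 / bs m) := by
  have hc : Measure.count (JF m) = ENNReal.ofReal ((bs m : ℝ) / 2) := by
    have := count_JF h1 m
    rw [← ENNReal.mul_right_inj (a := 2) (by norm_num) (by norm_num), this]
    have h2 : (2 : ENNReal) = ENNReal.ofReal 2 := by simp
    rw [h2, ← ENNReal.ofReal_mul (by norm_num)]
    rw [mul_div_cancel₀ _ (by norm_num : (2 : ℝ) ≠ 0)]
    simp
  rw [unifJ_def, Measure.smul_apply, smul_eq_mul, hc]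
  calc (ENNReal.ofReal ((bs m : ℝ) / 2))⁻¹ * Measure.count.restrict (JF m) {a}
      ≤ (ENNReal.ofReal ((bs m : ℝ) / 2))⁻¹ * Measure.count {a} := by
        gcongr
        exact Measure.restrict_le_self
    _ = ENNReal.ofReal (2 / bs m) := by
        rw [Measure.count_singleton, mul_one, ← ENNReal.ofReal_inv_of_pos
          (div_pos (bsR_pos m) (by norm_num)), inv_div]

/-! ## Measurability -/

theorem measurable_Dr_of {Ω : Type*} [MeasurableSpace Ω] {c : Ω → ℕ → ℕ}
    (hc : ∀ m, Measurable (fun x => c x m)) (hb : ∀ x m, c x m ≤ bs m) :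
    Measurable (fun x => Dr (c x)) := by
  have h : ∀ n : ℕ, Measurable (fun x => ∑ m ∈ Finset.range n, (c x m : ℝ) / PB (m + 1)) := by
    intro n
    refine Finset.measurable_sum _ fun m _ => ?_
    exact ((measurable_from_top (f := fun k : ℕ => (k : ℝ))).comp (hc m)).div_const _
  refine measurable_of_tendsto_metrizable h ?_
  rw [tendsto_pi_nhds]
  intro x
  exact (summable_term (hb x)).hasSum.tendsto_sum_nat

theorem measurable_DrD : Measurable DrD := by
  unfold DrD
  refine measurable_Dr_of (fun m => ?_) (fun x m => (x m).isLt.le)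
  exact (Measurable.of_discrete (f := fun a : Fin (bs m) => a.val)).comp (measurable_pi_apply m)

theorem measurable_DrB : Measurable DrB := by
  unfold DrB
  refine measurable_Dr_of (fun m => ?_) (fun x m => (x m).isLt.le.trans (sz_le_bs m))
  exact (Measurable.of_discrete (f := fun a : Fin (sz m) => a.val)).comp (measurable_pi_apply m)

/-! ## Integer prefixes -/

/-- The integer of the first `M` digits. -/
def NN (c : Dg) : ℕ → ℕ
  | 0 => 0
  | M + 1 => NN c M * bs M + (c M).val

/-- Product of the first `m` bases, as a natural number. -/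
def PN (m : ℕ) : ℕ := ∏ i ∈ Finset.range m, bs i

theorem PN_succ (m : ℕ) : PN (m + 1) = PN m * bs m := by
  unfold PN
  rw [Finset.prod_range_succ]

theorem PN_cast (m : ℕ) : (PN m : ℝ) = PB m := by
  unfold PN PB
  push_cast
  rfl

theorem NN_lt (c : Dg) (M : ℕ) : NN c M < PN M := by
  induction M with
  | zero => simp [NN, PN]
  | succ M ih =>
    rw [PN_succ]
    change NN c M * bs M + (c M).val < PN M * bs M
    have := (c M).isLt
    nlinarith [Nat.mul_le_mul_right (bs M) (Nat.succ_le_of_lt ih)]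

theorem NN_inj {c c' : Dg} {M : ℕ} (h : NN c M = NN c' M) : ∀ i < M, c i = c' i := by
  induction M with
  | zero => intro i hi; omega
  | succ M ih =>
    change NN c M * bs M + (c M).val = NN c' M * bs M + (c' M).val at h
    have h1 : (c M).val = (c' M).val := by
      have := congrArg (fun k => k % bs M) h
      simpa [Nat.add_mod, Nat.mod_eq_of_lt (c M).isLt, Nat.mod_eq_of_lt (c' M).isLt] using this
    have h2 : NN c M = NN c' M := by
      rw [h1] at h
      have := Nat.add_right_cancel h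
      exact Nat.eq_of_mul_eq_mul_right (bs_pos M) this
    intro i hi
    rcases Nat.lt_succ_iff_lt_or_eq.1 hi with h3 | h3
    · exact ih h2 i h3
    · subst h3
      exact Fin.ext h1

theorem NN_congr {c c' : Dg} {M : ℕ} (h : ∀ i < M, c i = c' i) : NN c M = NN c' M := by
  induction M with
  | zero => rfl
  | succ M ih =>
    change NN c M * bs M + (c M).val = NN c' M * bs M + (c' M).val
    rw [ih (fun i hi => h i (by omega)), h M (by omega)]

theorem sum_eq_NN (c : Dg) (M : ℕ) :
    ∑ m ∈ Finset.range M, ((c m).val : ℝ) / PB (m + 1) = (NN c M : ℝ) / PB M := by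
  induction M with
  | zero => simp [NN]
  | succ M ih =>
    rw [Finset.sum_range_succ, ih]
    change _ = ((NN c M * bs M + (c M).val : ℕ) : ℝ) / PB (M + 1)
    rw [PB_succ]
    have h1 := (PB_pos M).ne'
    have h2 := (bsR_pos M).ne'
    push_cast
    field_simp

theorem NN_le_DrD (c : Dg) (M : ℕ) : (NN c M : ℝ) / PB M ≤ DrD c := by
  rw [← sum_eq_NN]
  exact (summable_term (c := fun m => (c m).val) fun m => (c m).isLt.le).sum_le_tsum _
    (fun m _ => term_nonneg _ m)

theorem NN_upper_mono (c : Dg) (M K : ℕ) (h : M ≤ K) :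
    ((NN c K : ℝ) + 1) / PB K ≤ ((NN c M : ℝ) + 1) / PB M := by
  induction K, h using Nat.le_induction with
  | base => exact le_refl _
  | succ K _ ih =>
    refine le_trans ?_ ih
    rw [PB_succ, div_le_div_iff₀ (mul_pos (PB_pos K) (bsR_pos K)) (PB_pos K)]
    have h1 : ((c K).val : ℝ) + 1 ≤ bs K := by exact_mod_cast (c K).isLt
    have h2 : (NN c (K + 1) : ℝ) = NN c K * bs K + (c K).val := by
      change ((NN c K * bs K + (c K).val : ℕ) : ℝ) = _
      push_cast
      ring
    rw [h2]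
    have h3 := PB_pos K
    nlinarith [mul_le_mul_of_nonneg_right h1 h3.le]

theorem DrD_le_NN (c : Dg) (M : ℕ) : DrD c ≤ ((NN c M : ℝ) + 1) / PB M := by
  have hs := (summable_term (c := fun m => (c m).val) fun m => (c m).isLt.le).hasSum.tendsto_sum_nat
  refine le_of_tendsto hs ?_
  filter_upwards [Filter.eventually_ge_atTop M] with K hK
  change ∑ m ∈ Finset.range K, ((c m).val : ℝ) / PB (m + 1) ≤ _
  rw [sum_eq_NN]
  refine le_trans ?_ (NN_upper_mono c M K hK)
  rw [add_div]
  have : 0 < 1 / PB K := div_pos one_pos (PB_pos K)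
  linarith

/-! ## The digit function -/

/-- The digits of a real number. -/
noncomputable def dg (x : ℝ) : Dg := fun m => ⟨⌊x * PN (m + 1)⌋₊ % bs m, Nat.mod_lt _ (bs_pos m)⟩

theorem measurable_dg : Measurable dg := by
  refine measurable_pi_lambda _ fun m => ?_
  have h : Measurable (fun x : ℝ => ⌊x * PN (m + 1)⌋₊) :=
    Nat.measurable_floor.comp (measurable_id.mul_const _)
  exact (measurable_from_top (f := fun k : ℕ =>
    (⟨k % bs m, Nat.mod_lt _ (bs_pos m)⟩ : Fin (bs m)))).comp h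

theorem NN_dg {x : ℝ} (hx : x < 1) (M : ℕ) : NN (dg x) M = ⌊x * PN M⌋₊ := by
  induction M with
  | zero =>
    simp only [NN, PN, Finset.range_zero, Finset.prod_empty, Nat.cast_one, mul_one]
    rw [eq_comm, Nat.floor_eq_zero]
    exact hx
  | succ M ih =>
    change NN (dg x) M * bs M + ⌊x * PN (M + 1)⌋₊ % bs M = _
    have h : NN (dg x) M = ⌊x * PN (M + 1)⌋₊ / bs M := by
      rw [ih, ← Nat.floor_div_natCast, PN_succ]
      congr 1
      push_cast
      have := (bsR_pos M).ne'
      field_simp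
    rw [h]
    exact Nat.div_add_mod' _ _

theorem DrD_dg {x : ℝ} (h0 : 0 ≤ x) (h1 : x < 1) : DrD (dg x) = x := by
  have key : ∀ M : ℕ, |DrD (dg x) - x| ≤ (1 / 4) ^ M := by
    intro M
    have a1 := NN_le_DrD (dg x) M
    have a2 := DrD_le_NN (dg x) M
    have hp := PB_pos M
    have a3 : (NN (dg x) M : ℝ) / PB M ≤ x := by
      rw [NN_dg h1, div_le_iff₀ hp, ← PN_cast]
      exact Nat.floor_le (mul_nonneg h0 (Nat.cast_nonneg _))
    have a4 : x ≤ ((NN (dg x) M : ℝ) + 1) / PB M := by
      rw [NN_dg h1, le_div_iff₀ hp, ← PN_cast]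
      exact (Nat.lt_floor_add_one _).le
    have a5 : ((NN (dg x) M : ℝ) + 1) / PB M = (NN (dg x) M : ℝ) / PB M + 1 / PB M := by
      rw [add_div]
    have a6 : 1 / PB M ≤ (1 / 4) ^ M := by
      rw [div_le_iff₀ hp]
      calc (1 : ℝ) = (1 / 4) ^ M * 4 ^ M := by rw [← mul_pow]; norm_num
        _ ≤ _ := mul_le_mul_of_nonneg_left (four_pow_le_PB M) (by positivity)
    rw [abs_le]
    constructor <;> linarith
  have hl : Filter.Tendsto (fun M : ℕ => ((1 : ℝ) / 4) ^ M) Filter.atTop (nhds 0) :=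
    tendsto_pow_atTop_nhds_zero_of_lt_one (by norm_num) (by norm_num)
  have := ge_of_tendsto' hl key
  have h2 := abs_nonneg (DrD (dg x) - x)
  have h3 : |DrD (dg x) - x| = 0 := le_antisymm this h2
  rw [abs_eq_zero] at h3
  linarith

/-! ## Cylinders -/

/-- A cylinder. -/
def Cyl (z : Dg) (M : ℕ) : Set Dg := {c | ∀ i < M, c i = z i}

theorem Cyl_eq_pi (z : Dg) (M : ℕ) : Cyl z M = Set.pi (Finset.range M) (fun i => {z i}) := by
  ext c
  simp [Cyl, Set.mem_pi]

theorem measurableSet_Cyl (z : Dg) (M : ℕ) : MeasurableSet (Cyl z M) := by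
  rw [Cyl_eq_pi]
  exact MeasurableSet.pi (Finset.countable_toSet _) (fun i _ => MeasurableSet.of_discrete)

theorem Cyl_eq_of_mem {z w : Dg} {M : ℕ} (h : w ∈ Cyl z M) : Cyl z M = Cyl w M := by
  ext c
  constructor
  · intro hc i hi
    rw [hc i hi, h i hi]
  · intro hc i hi
    rw [hc i hi, h i hi]

/-- The set of all cylinders. -/
def Cyls : Set (Set Dg) := {s | ∃ z M, s = Cyl z M}

theorem isPi_Cyls : IsPiSystem Cyls := by
  rintro _ ⟨z, M, rfl⟩ _ ⟨z', M', rfl⟩ ⟨w, hw, hw'⟩
  refine ⟨w, max M M', ?_⟩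
  rw [Cyl_eq_of_mem hw, Cyl_eq_of_mem hw']
  ext c
  constructor
  · rintro ⟨h1, h2⟩ i hi
    rcases lt_max_iff.1 hi with h | h
    · exact h1 i h
    · exact h2 i h
  · intro h
    exact ⟨fun i hi => h i (lt_max_of_lt_left hi), fun i hi => h i (lt_max_of_lt_right hi)⟩

/-- Extension of a finite digit sequence by zeros. -/
def extD (M : ℕ) (z : (i : Fin M) → Fin (bs i)) : Dg :=
  fun j => if h : j < M then z ⟨j, h⟩ else ⟨0, bs_pos j⟩

theorem generate_Cyls : (inferInstance : MeasurableSpace Dg) = MeasurableSpace.generateFrom Cyls := by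
  refine le_antisymm ?_ ?_
  · refine iSup_le fun i => ?_
    rintro _ ⟨s, _, rfl⟩
    have : (fun c : Dg => c i) ⁻¹' s =
        ⋃ z : {z : (j : Fin (i + 1)) → Fin (bs j) // z ⟨i, Nat.lt_succ_self i⟩ ∈ s},
          Cyl (extD (i + 1) z.1) (i + 1) := by
      ext c
      simp only [Set.mem_preimage, Set.mem_iUnion]
      constructor
      · intro hc
        refine ⟨⟨fun j => c j, hc⟩, ?_⟩
        intro j hj
        simp [extD, hj]
      · rintro ⟨⟨z, hz⟩, h⟩
        have := h i (Nat.lt_succ_self i)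
        simp only [extD, Nat.lt_succ_self, dite_true] at this
        rw [this]
        exact hz
    rw [this]
    refine MeasurableSet.iUnion fun z => ?_
    exact MeasurableSpace.measurableSet_generateFrom ⟨_, _, rfl⟩
  · refine MeasurableSpace.generateFrom_le ?_
    rintro _ ⟨z, M, rfl⟩
    exact measurableSet_Cyl z M

theorem ext_Cyl {μ ν : Measure Dg} [IsFiniteMeasure μ]
    (h : ∀ z M, μ (Cyl z M) = ν (Cyl z M)) : μ = ν := by
  refine ext_of_generate_finite Cyls generate_Cyls isPi_Cyls ?_ ?_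
  · rintro _ ⟨z, M, rfl⟩
    exact h z M
  · have z : Dg := fun j => ⟨0, bs_pos j⟩
    have h0 := h z 0
    have hu : Cyl z 0 = Set.univ := by
      ext c
      simp [Cyl]
    rwa [hu] at h0

theorem mL_Cyl (z : Dg) (M : ℕ) : mL (Cyl z M) = ENNReal.ofReal (1 / PB M) := by
  rw [Cyl_eq_pi]
  unfold mL
  rw [Measure.infinitePi_pi _ (fun i _ => MeasurableSet.of_discrete)]
  simp only [unifM_singleton]
  rw [one_div, ENNReal.ofReal_inv_of_pos (PB_pos M)]
  unfold PB
  rw [ENNReal.ofReal_prod_of_nonneg (fun i _ => (bsR_pos i).le)]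
  simp only [ENNReal.ofReal_natCast]
  rw [← ENNReal.prod_inv_distrib]
  intro i _ j _ _
  exact Or.inl (by exact_mod_cast (bs_pos i).ne')

theorem mJ_Cyl_le (h1 : R1Stmt) (z : Dg) (M : ℕ) :
    mJ (Cyl z M) ≤ ENNReal.ofReal ((1 / 2) ^ M) := by
  rw [Cyl_eq_pi]
  unfold mJ
  have := isProb_unifJ h1
  rw [Measure.infinitePi_pi _ (fun i _ => MeasurableSet.of_discrete)]
  calc ∏ i ∈ Finset.range M, unifJ i {z i} ≤ ∏ i ∈ Finset.range M, ENNReal.ofReal (1 / 2) := by
        refine Finset.prod_le_prod' fun i _ => ?_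
        refine (unifJ_singleton_le h1 i (z i)).trans (ENNReal.ofReal_le_ofReal ?_)
        rw [div_le_div_iff₀ (bsR_pos i) (by norm_num)]
        have : (4 : ℝ) ≤ bs i := by exact_mod_cast four_le_bs i
        linarith
    _ = _ := by
        rw [Finset.prod_const, Finset.card_range, ENNReal.ofReal_pow (by norm_num)]

/-! ## Lebesgue measure and the digits -/

theorem dg_Cyl (z : Dg) (M : ℕ) : {x : ℝ | x ∈ Set.Ico (0 : ℝ) 1 ∧ dg x ∈ Cyl z M} =
    Set.Ico ((NN z M : ℝ) / PB M) (((NN z M : ℝ) + 1) / PB M) := by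
  have hp := PB_pos M
  ext x
  constructor
  · rintro ⟨⟨h0, h1⟩, h⟩
    have h2 : NN (dg x) M = NN z M := NN_congr h
    rw [NN_dg h1] at h2
    rw [← h2]
    constructor
    · rw [div_le_iff₀ hp, ← PN_cast]
      exact Nat.floor_le (mul_nonneg h0 (Nat.cast_nonneg _))
    · rw [lt_div_iff₀ hp, ← PN_cast]
      exact Nat.lt_floor_add_one _
  · rintro ⟨h0, h1⟩
    have h2 : 0 ≤ x := le_trans (div_nonneg (Nat.cast_nonneg _) hp.le) h0
    have h3 : x < 1 := by
      refine lt_of_lt_of_le h1 ?_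
      rw [div_le_one hp, ← PN_cast]
      exact_mod_cast NN_lt z M
    refine ⟨⟨h2, h3⟩, ?_⟩
    have h4 : NN (dg x) M = NN z M := by
      rw [NN_dg h3, Nat.floor_eq_iff (mul_nonneg h2 (Nat.cast_nonneg _))]
      rw [div_le_iff₀ hp, ← PN_cast] at h0
      rw [lt_div_iff₀ hp, ← PN_cast] at h1
      exact ⟨h0, h1⟩
    exact NN_inj h4

theorem map_dg : ((volume : Measure ℝ).restrict (Set.Ico 0 1)).map dg = mL := by
  have := isProb_mL
  symm
  refine ext_Cyl fun z M => ?_
  rw [Measure.map_apply measurable_dg (measurableSet_Cyl z M),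
    Measure.restrict_apply (measurable_dg (measurableSet_Cyl z M)), mL_Cyl]
  have : dg ⁻¹' Cyl z M ∩ Set.Ico 0 1 = {x : ℝ | x ∈ Set.Ico (0 : ℝ) 1 ∧ dg x ∈ Cyl z M} := by
    ext x
    simp only [Set.mem_inter_iff, Set.mem_preimage, Set.mem_ofPred_eq]
    tauto
  rw [this, dg_Cyl, Real.volume_Ico]
  congr 1
  rw [add_div]
  ring

theorem dg_null {A : Set Dg} (hA : MeasurableSet A) (h : mL A = 0) :
    volume {x : ℝ | dg (Int.fract x) ∈ A} = 0 := by
  have h1 : volume (dg ⁻¹' A ∩ Set.Ico (0 : ℝ) 1) = 0 := by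
    rw [← map_dg, Measure.map_apply measurable_dg hA,
      Measure.restrict_apply (measurable_dg hA)] at h
    exact h
  have h2 : {x : ℝ | dg (Int.fract x) ∈ A} ⊆
      ⋃ k : ℤ, (fun x : ℝ => (k : ℝ) + x) '' (dg ⁻¹' A ∩ Set.Ico (0 : ℝ) 1) := by
    intro x hx
    rw [Set.mem_iUnion]
    refine ⟨⌊x⌋, Int.fract x, ⟨hx, Int.fract_nonneg x, Int.fract_lt_one x⟩, ?_⟩
    exact Int.floor_add_fract x
  refine measure_mono_null h2 ?_
  rw [measure_iUnion_null_iff]
  intro k
  rw [measure_image_const_add_eq]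
  exact h1
where
  measure_image_const_add_eq {k : ℤ} {B : Set ℝ} :
      volume ((fun x : ℝ => (k : ℝ) + x) '' B) = volume B := by
    rw [Set.image_add_left, measure_preimage_add]

/-! ## No atoms -/

theorem mJ_NN_le (h1 : R1Stmt) (M a : ℕ) :
    mJ {c | NN c M = a} ≤ ENNReal.ofReal ((1 / 2) ^ M) := by
  by_cases h : ∃ z : Dg, NN z M = a
  · obtain ⟨z, hz⟩ := h
    refine le_trans (measure_mono ?_) (mJ_Cyl_le h1 z M)
    intro c hc i hi
    exact NN_inj (hc.trans hz.symm) i hi
  · have : {c : Dg | NN c M = a} = ∅ := by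
      ext c
      simp only [Set.mem_ofPred_eq, Set.mem_empty_iff_false, iff_false]
      intro hc
      exact h ⟨c, hc⟩
    rw [this]
    simp

theorem muR_singleton (h1 : R1Stmt) (x : ℝ) : muR {x} = 0 := by
  unfold muR
  rw [Measure.map_apply measurable_DrD (measurableSet_singleton x)]
  have key : ∀ M : ℕ, mJ (DrD ⁻¹' {x}) ≤ ENNReal.ofReal (2 * (1 / 2) ^ M) := by
    intro M
    have hsub : DrD ⁻¹' {x} ⊆ {c | NN c M = ⌊x * PN M⌋₊} ∪ {c | NN c M = ⌊x * PN M⌋₊ - 1} := by
      intro c hc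
      have hc : DrD c = x := hc
      have a1 := NN_le_DrD c M
      have a2 := DrD_le_NN c M
      rw [hc] at a1 a2
      have hp := PB_pos M
      rw [div_le_iff₀ hp, ← PN_cast] at a1
      rw [le_div_iff₀ hp, ← PN_cast] at a2
      rcases lt_or_eq_of_le a2 with h | h
      · left
        change NN c M = _
        rw [eq_comm, Nat.floor_eq_iff (le_trans (Nat.cast_nonneg _) a1)]
        exact ⟨a1, h⟩
      · right
        change NN c M = _
        rw [h]
        have : ((NN c M : ℝ) + 1) = ((NN c M + 1 : ℕ) : ℝ) := by push_cast; ring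
        rw [this, Nat.floor_natCast]
        omega
    calc mJ (DrD ⁻¹' {x}) ≤ mJ ({c | NN c M = ⌊x * PN M⌋₊} ∪ {c | NN c M = ⌊x * PN M⌋₊ - 1}) :=
          measure_mono hsub
      _ ≤ _ := measure_union_le _ _
      _ ≤ ENNReal.ofReal ((1 / 2) ^ M) + ENNReal.ofReal ((1 / 2) ^ M) :=
          add_le_add (mJ_NN_le h1 _ _) (mJ_NN_le h1 _ _)
      _ = _ := by
          rw [← ENNReal.ofReal_add (by positivity) (by positivity)]
          congr 1
          ring
  have hl : Filter.Tendsto (fun M : ℕ => ENNReal.ofReal (2 * (1 / 2) ^ M)) Filter.atTop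
      (nhds 0) := by
    rw [← ENNReal.ofReal_zero]
    refine ENNReal.tendsto_ofReal ?_
    have := (tendsto_pow_atTop_nhds_zero_of_lt_one (r := (1 / 2 : ℝ)) (by norm_num)
      (by norm_num)).const_mul 2
    simpa using this
  exact le_antisymm (ge_of_tendsto' hl key) zero_le

/-! ## Singularity -/

open Classical in
/-- The half set as a finite set of natural numbers. -/
noncomputable def HJ (m : ℕ) : Finset ℕ := (Finset.range (bs m)).filter (inJ m)

theorem mem_HJ {m x : ℕ} : x ∈ HJ m ↔ x < bs m ∧ inJ m x := by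
  classical
  unfold HJ
  rw [Finset.mem_filter, Finset.mem_range]

theorem card_HJ (h1 : R1Stmt) (m : ℕ) : 2 * (HJ m).card = bs m := h1.2.1 m

/-- Integers whose digits are all in the half sets. -/
noncomputable def AJ : ℕ → Finset ℕ
  | 0 => {0}
  | M + 1 => (AJ M ×ˢ HJ M).image (fun p => p.1 * bs M + p.2)

theorem AJ_succ (M : ℕ) : AJ (M + 1) = (AJ M ×ˢ HJ M).image (fun p => p.1 * bs M + p.2) := rfl

theorem card_AJ (h1 : R1Stmt) (M : ℕ) : (AJ M).card * 2 ^ M ≤ PN M := by
  induction M with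
  | zero => simp [AJ, PN]
  | succ M ih =>
    have h : (AJ (M + 1)).card ≤ (AJ M).card * (HJ M).card := by
      rw [AJ_succ]
      refine Finset.card_image_le.trans ?_
      rw [Finset.card_product]
    have h2 := card_HJ h1 M
    rw [PN_succ]
    calc (AJ (M + 1)).card * 2 ^ (M + 1)
        ≤ (AJ M).card * (HJ M).card * 2 ^ (M + 1) :=
          Nat.mul_le_mul_right _ h
      _ = (AJ M).card * 2 ^ M * (2 * (HJ M).card) := by
          rw [pow_succ]; ring
      _ ≤ PN M * bs M := by
          rw [h2]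
          exact Nat.mul_le_mul_right _ ih

theorem NN_mem_AJ {c : Dg} (hc : ∀ m, inJ m (c m).val) (M : ℕ) : NN c M ∈ AJ M := by
  induction M with
  | zero => simp [NN, AJ]
  | succ M ih =>
    rw [AJ_succ, Finset.mem_image]
    refine ⟨(NN c M, (c M).val), ?_, rfl⟩
    rw [Finset.mem_product, mem_HJ]
    exact ⟨ih, (c M).isLt, hc M⟩

/-- Small closed sets carrying the measure. -/
def EM (M : ℕ) : Set ℝ := ⋃ N ∈ AJ M, Set.Icc ((N : ℝ) / PB M) (((N : ℝ) + 1) / PB M)

theorem measurableSet_EM (M : ℕ) : MeasurableSet (EM M) :=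
  Finset.measurableSet_biUnion _ fun _ _ => measurableSet_Icc

theorem volume_EM (h1 : R1Stmt) (M : ℕ) : volume (EM M) ≤ ENNReal.ofReal ((1 / 2) ^ M) := by
  unfold EM
  refine (measure_biUnion_finset_le _ _).trans ?_
  have h : ∀ N ∈ AJ M, volume (Set.Icc ((N : ℝ) / PB M) (((N : ℝ) + 1) / PB M)) =
      ENNReal.ofReal (1 / PB M) := by
    intro N _
    rw [Real.volume_Icc]
    congr 1
    rw [add_div]
    ring
  rw [Finset.sum_congr rfl h, Finset.sum_const, nsmul_eq_mul]
  have hc : ((AJ M).card : ENNReal) = ENNReal.ofReal ((AJ M).card : ℝ) := by simp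
  rw [hc, ← ENNReal.ofReal_mul (Nat.cast_nonneg _)]
  refine ENNReal.ofReal_le_ofReal ?_
  have hp := PB_pos M
  have h2 : ((AJ M).card : ℝ) * 2 ^ M ≤ PB M := by
    rw [← PN_cast]
    exact_mod_cast card_AJ h1 M
  rw [mul_one_div, div_le_iff₀ hp]
  have h3 : ((1 : ℝ) / 2) ^ M * 2 ^ M = 1 := by rw [← mul_pow]; norm_num
  have h4 : (0 : ℝ) < (1 / 2) ^ M := by positivity
  calc ((AJ M).card : ℝ) = (1 / 2) ^ M * (((AJ M).card : ℝ) * 2 ^ M) := by
        rw [mul_comm ((AJ M).card : ℝ), ← mul_assoc, h3, one_mul]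
    _ ≤ _ := mul_le_mul_of_nonneg_left h2 h4.le

theorem DrD_mem_EM {c : Dg} (hc : ∀ m, inJ m (c m).val) (M : ℕ) : DrD c ∈ EM M := by
  unfold EM
  rw [Set.mem_iUnion₂]
  exact ⟨NN c M, NN_mem_AJ hc M, NN_le_DrD c M, DrD_le_NN c M⟩

theorem mJ_bad (h1 : R1Stmt) : mJ {c | ¬ ∀ m, inJ m (c m).val} = 0 := by
  have : {c : Dg | ¬ ∀ m, inJ m (c m).val} ⊆ ⋃ m, (fun c : Dg => c m) ⁻¹' (JF m)ᶜ := by
    intro c hc
    have hc : ¬ ∀ m, inJ m (c m).val := hc
    push Not at hc
    obtain ⟨m, hm⟩ := hc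
    rw [Set.mem_iUnion]
    exact ⟨m, hm⟩
  refine measure_mono_null this ?_
  rw [measure_iUnion_null_iff]
  intro m
  have := isProb_unifJ h1
  unfold mJ
  have h := (measurePreserving_eval_infinitePi (fun m => unifJ m) m).measure_preimage
    (s := (JF m)ᶜ) (MeasurableSet.of_discrete).nullMeasurableSet
  change (Measure.infinitePi fun m => unifJ m) (Function.eval m ⁻¹' (JF m)ᶜ) = 0
  rw [h]
  exact unifJ_compl m

theorem singular (h1 : R1Stmt) : muR ⟂ₘ (volume : Measure ℝ) := by
  refine ⟨(⋂ M, EM M)ᶜ, (MeasurableSet.iInter measurableSet_EM).compl, ?_, ?_⟩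
  · unfold muR
    rw [Measure.map_apply measurable_DrD (MeasurableSet.iInter measurableSet_EM).compl]
    refine measure_mono_null ?_ (mJ_bad h1)
    intro c hc hall
    apply hc
    change DrD c ∈ ⋂ M, EM M
    rw [Set.mem_iInter]
    exact DrD_mem_EM hall
  · rw [compl_compl]
    have key : ∀ M : ℕ, volume (⋂ M, EM M) ≤ ENNReal.ofReal ((1 / 2) ^ M) := fun M =>
      (measure_mono (Set.iInter_subset _ M)).trans (volume_EM h1 M)
    have hl : Filter.Tendsto (fun M : ℕ => ENNReal.ofReal ((1 / 2) ^ M)) Filter.atTop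
        (nhds 0) := by
      rw [← ENNReal.ofReal_zero]
      exact ENNReal.tendsto_ofReal (tendsto_pow_atTop_nhds_zero_of_lt_one (by norm_num)
        (by norm_num))
    exact le_antisymm (ge_of_tendsto' hl key) zero_le

theorem r0 (h1 : R1Stmt) : R0Stmt := by
  have := isProb_mJ h1
  refine ⟨?_, ⟨muR_singleton h1⟩, singular h1, isProb_mL, isProb_mJ h1, measurable_DrD,
    measurable_DrB, dg, measurable_dg, fun x hx => DrD_dg hx.1 hx.2, fun A hA h => dg_null hA h⟩
  unfold muR
  exact Measure.isProbabilityMeasure_map measurable_DrD.aemeasurable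

end Pool.Agent.FL.H88
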